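import Pool.Agent.H47.CH.Sys

/-!
# Chou's property P: normal systems (part 2: chief factors of locally finite-by-polycyclic groups)
-/

set_option autoImplicit false

namespace Pool.Agent.H47.CH

open Set
open scoped commutatorElement

/-- every subgroup of `K` is finitely generated and `K` is finite-by-soluble -/
def FbP (K : Type*) [Group K] : Prop :=
  (∀ L : Subgroup K, L.FG) ∧ ∃ (T : Subgroup K) (_ : T.Normal), Finite T ∧ Group.IsSolvable (K ⧸ T)

theorem fbp_ds {K : Type*} [Group K] (h : FbP K) : ∃ (T : Subgroup K) (n : ℕ), (T : Set K).Finite ∧ derivedSeries K n ≤ T := by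
  obtain ⟨-, T, hT, hf, ⟨n, hn⟩⟩ := h
  refine ⟨T, n, Set.toFinite _, ?_⟩
  have h1 := map_derivedSeries_le_derivedSeries (QuotientGroup.mk' T) n
  rw [hn] at h1
  intro x hx
  have h2 := h1 ⟨x, hx, rfl⟩
  rw [Subgroup.mem_bot] at h2
  exact (QuotientGroup.eq_one_iff x).1 h2

/-- subgroups -/
theorem fbp_sub {G : Type*} [Group G] {K L : Subgroup G} (hL : L ≤ K) (h : FbP K) : FbP L := by
  obtain ⟨h1, T, hT, hf, hs⟩ := h
  let ι : L →* K := Subgroup.inclusion hL
  have hι : Function.Injective ι := Subgroup.inclusion_injective hL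
  refine ⟨fun L' => ?_, T.comap ι, inferInstance, ?_, ?_⟩
  · classical
    obtain ⟨S, hS⟩ := h1 (L'.map ι)
    refine ⟨S.preimage ι hι.injOn, ?_⟩
    apply Subgroup.map_injective hι
    rw [MonoidHom.map_closure, ← hS, Finset.coe_preimage, Set.image_preimage_eq_of_subset]
    intro x hx
    have h2 : x ∈ L'.map ι := by rw [← hS]; exact Subgroup.subset_closure hx
    obtain ⟨y, -, rfl⟩ := h2
    exact ⟨y, rfl⟩
  · exact Finite.of_injective (fun x : T.comap ι => (⟨ι x, x.2⟩ : T)) fun x y hxy =>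
      Subtype.ext (hι (congrArg Subtype.val hxy))
  · have : Group.IsSolvable (K ⧸ T) := hs
    refine Group.isSolvable_of_isSolvable_injective (f := QuotientGroup.map (T.comap ι) T ι le_rfl)
      ((injective_iff_map_eq_one _).2 fun q hq => ?_)
    induction q using QuotientGroup.induction_on with
    | H x =>
      rw [QuotientGroup.map_mk, QuotientGroup.eq_one_iff] at hq
      exact (QuotientGroup.eq_one_iff x).2 hq

/-- images -/
theorem fbp_surj {K Q : Type*} [Group K] [Group Q] (f : K →* Q) (hf : Function.Surjective f) (h : FbP K) : FbP Q := by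
  classical
  obtain ⟨h1, T, hT, hfin, hs⟩ := h
  refine ⟨fun L => ?_, T.map f, hT.map f hf, ?_, ?_⟩
  · obtain ⟨S, hS⟩ := h1 (L.comap f)
    refine ⟨S.image f, ?_⟩
    rw [Finset.coe_image, ← MonoidHom.map_closure, hS, Subgroup.map_comap_eq_self_of_surjective hf]
  · have : ((T.map f : Subgroup Q) : Set Q).Finite := by
      rw [Subgroup.coe_map]
      exact (Set.toFinite _).image _
    exact this
  · have : Group.IsSolvable (K ⧸ T) := hs
    have hn : (T.map f).Normal := hT.map f hf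
    have hle : T ≤ (T.map f).comap f := Subgroup.le_comap_map f T
    refine Group.isSolvable_of_surjective (f := QuotientGroup.map T (T.map f) f hle) ?_
    intro q
    induction q using QuotientGroup.induction_on with
    | H x =>
      obtain ⟨k, rfl⟩ := hf x
      exact ⟨(k : K ⧸ T), rfl⟩

theorem fg_bot' {G : Type*} [Group G] : (⊥ : Subgroup G).FG := ⟨∅, by simp⟩

theorem fg_map' {G H : Type*} [Group G] [Group H] {P : Subgroup G} (f : G →* H) (h : P.FG) : (P.map f).FG := by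
  classical
  obtain ⟨S, hS⟩ := h
  exact ⟨S.image f, by rw [Finset.coe_image, ← MonoidHom.map_closure, hS]⟩

theorem fg_closure {G : Type*} [Group G] {T : Set G} (hT : T.Finite) : (Subgroup.closure T).FG :=
  ⟨hT.toFinset, by rw [hT.coe_toFinset]⟩

/-- finitely generated abelian groups of exponent two, or with all elements squares -/
theorem fa {Q : Type*} [Group Q] (A : Subgroup Q) (hfg : A.FG) (hc : ∀ x ∈ A, ∀ y ∈ A, x * y = y * x)
    (h : (∀ x ∈ A, x ^ 2 = 1) ∨ ∀ x ∈ A, ∃ y ∈ A, x = y ^ 2) : (A : Set Q).Finite := by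
  have hfg' : Group.FG A := (Group.fg_iff_subgroup_fg A).2 hfg
  let _ : CommGroup A := { (inferInstance : Group A) with
    mul_comm := fun x y => Subtype.ext (hc x x.2 y y.2) }
  have htor : ∃ r : ℤ, r ≠ 0 ∧ ∀ x : A, x ^ r = 1 := by
    rcases h with h | h
    · exact ⟨2, two_ne_zero, fun x => Subtype.ext (by
        have := h x x.2
        exact_mod_cast this)⟩
    · have hf : Module.Finite ℤ (Additive A) := Module.Finite.iff_addGroup_fg.2 inferInstance
      obtain ⟨r, hr, hr2⟩ := Submodule.exists_sub_one_mem_and_smul_eq_zero_of_fg_of_le_smul (R := ℤ) (M := Additive A)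
        (Ideal.span {(2 : ℤ)}) ⊤ hf.1 (by
          intro x _
          obtain ⟨y, hy, hxy⟩ := h (Additive.toMul x : A) (Additive.toMul x : A).2
          have h1 : x = (2 : ℤ) • (Additive.ofMul (⟨y, hy⟩ : A)) := by
            apply Additive.toMul.injective
            apply Subtype.ext
            rw [toMul_zsmul, toMul_ofMul, show (2 : ℤ) = ((2 : ℕ) : ℤ) from rfl, zpow_natCast, Subgroup.coe_pow]
            exact hxy
          rw [h1]
          exact Submodule.smul_mem_smul (Ideal.mem_span_singleton_self 2) trivial)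
      refine ⟨r, ?_, fun x => ?_⟩
      · rintro rfl
        rw [Ideal.mem_span_singleton] at hr
        omega
      · have := hr2 (Additive.ofMul x) trivial
        exact Additive.ofMul.injective this
  obtain ⟨r, hr, hr2⟩ := htor
  have h3 : Finite A := by
    apply CommGroup.finite_of_fg_isMulTorsion
    intro x
    rw [isOfFinOrder_iff_zpow_eq_one]
    exact ⟨r, hr, hr2 x⟩
  exact Set.toFinite _

/-- the normal closure in `K` -/
def nc {G : Type*} [Group G] (K : Subgroup G) (e : G) : Subgroup G := Subgroup.closure {x | ∃ k ∈ K, x = k * e * k⁻¹}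

section
variable {G : Type*} [Group G]

theorem nc_mono {K K' : Subgroup G} (h : K ≤ K') (e : G) : nc K e ≤ nc K' e :=
  Subgroup.closure_mono fun _ ⟨k, hk, hx⟩ => ⟨k, h hk, hx⟩

theorem nc_le {K N : Subgroup G} {e : G} (h : ∀ k ∈ K, k * e * k⁻¹ ∈ N) : nc K e ≤ N := by
  refine (Subgroup.closure_le N).2 ?_
  rintro x ⟨k, hk, rfl⟩
  exact h k hk

theorem nc_self (K : Subgroup G) (e : G) : e ∈ nc K e :=
  Subgroup.subset_closure ⟨1, K.one_mem, by simp⟩

theorem nc_conj {K : Subgroup G} {e h : G} (hh : h ∈ K) {x : G} (hx : x ∈ nc K e) : h * x * h⁻¹ ∈ nc K e := by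
  unfold nc at hx
  induction hx using Subgroup.closure_induction with
  | mem x hx =>
    obtain ⟨k, hk, rfl⟩ := hx
    exact Subgroup.subset_closure ⟨h * k, K.mul_mem hh hk, by group⟩
  | one => simp [(nc K e).one_mem]
  | mul x y _ _ hx hy =>
    rw [show h * (x * y) * h⁻¹ = (h * x * h⁻¹) * (h * y * h⁻¹) by group]
    exact (nc K e).mul_mem hx hy
  | inv x _ hx =>
    rw [show h * x⁻¹ * h⁻¹ = (h * x * h⁻¹)⁻¹ by group]
    exact (nc K e).inv_mem hx

theorem mem_sup_l {M A : Subgroup G} (hM : M.Normal) {x : G} : x ∈ M ⊔ A ↔ ∃ m ∈ M, ∃ a ∈ A, m * a = x :=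
  Subgroup.mem_sup_of_normal_left

theorem sup_conj {M A : Subgroup G} (hM : M.Normal) {h : G} (hA : ∀ a ∈ A, h * a * h⁻¹ ∈ A) {x : G} (hx : x ∈ M ⊔ A) :
    h * x * h⁻¹ ∈ M ⊔ A := by
  obtain ⟨m, hm, a, ha, rfl⟩ := (mem_sup_l hM).1 hx
  rw [show h * (m * a) * h⁻¹ = (h * m * h⁻¹) * (h * a * h⁻¹) by group]
  exact (mem_sup_l hM).2 ⟨_, hM.conj_mem m hm h, _, hA a ha, rfl⟩

/-- everything in a chief factor is reached from one element by finitely generated subgroups -/
theorem reach {M N : Subgroup G} (hM : M.Normal) (hN : N.Normal) (hMN : M ≤ N)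
    (hch : ∀ L : Subgroup G, L.Normal → M ≤ L → L ≤ N → L = M ∨ L = N) {e : G} (he : e ∈ N) (heM : e ∉ M) {x : G} (hx : x ∈ N) :
    ∃ K : Subgroup G, K.FG ∧ x ∈ M ⊔ nc K e := by
  let L : Subgroup G :=
    { carrier := {x | ∃ K : Subgroup G, K.FG ∧ x ∈ M ⊔ nc K e}
      mul_mem' := by
        rintro x y ⟨K, hK, hx⟩ ⟨K', hK', hy⟩
        exact ⟨K ⊔ K', hK.sup hK', mul_mem (sup_le_sup_left (nc_mono le_sup_left e) M hx)
          (sup_le_sup_left (nc_mono le_sup_right e) M hy)⟩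
      one_mem' := ⟨⊥, fg_bot', one_mem _⟩
      inv_mem' := by
        rintro x ⟨K, hK, hx⟩
        exact ⟨K, hK, inv_mem hx⟩ }
  have hL : L.Normal := by
    refine ⟨?_⟩
    rintro x ⟨K, hK, hx⟩ h
    refine ⟨K ⊔ Subgroup.zpowers h, hK.sup (by rw [Subgroup.zpowers_eq_closure]; exact fg_closure (finite_singleton h)), ?_⟩
    refine sup_conj hM (fun a ha => nc_conj ?_ ha) (sup_le_sup_left (nc_mono le_sup_left e) M hx)
    exact (le_sup_right : Subgroup.zpowers h ≤ _) (Subgroup.mem_zpowers h)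
  have h1 : M ≤ L := fun m hm => ⟨⊥, fg_bot', Subgroup.mem_sup_left hm⟩
  have h2 : L ≤ N := by
    rintro x ⟨K, -, hx⟩
    exact (sup_le hMN (nc_le fun k _ => hN.conj_mem e he k)) hx
  have h3 : e ∈ L := ⟨⊥, fg_bot', Subgroup.mem_sup_right (nc_self _ e)⟩
  rcases hch L hL h1 h2 with h4 | h4
  · exact absurd (h4 ▸ h3) heM
  · have : x ∈ L := by rw [h4]; exact hx
    exact this

theorem reach_fin {M N : Subgroup G} (hM : M.Normal) (hN : N.Normal) (hMN : M ≤ N)
    (hch : ∀ L : Subgroup G, L.Normal → M ≤ L → L ≤ N → L = M ∨ L = N) {e : G} (he : e ∈ N) (heM : e ∉ M) {E : Set G}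
    (hE : E.Finite) (hEN : E ⊆ N) : ∃ K : Subgroup G, K.FG ∧ E ⊆ (M ⊔ nc K e : Subgroup G) := by
  induction E, hE using Set.Finite.induction_on with
  | empty => exact ⟨⊥, fg_bot', empty_subset _⟩
  | @insert a s _ _ ih =>
    obtain ⟨K, hK, h1⟩ := ih ((subset_insert a s).trans hEN)
    obtain ⟨K', hK', h2⟩ := reach hM hN hMN hch he heM (hEN (mem_insert a s))
    refine ⟨K ⊔ K', hK.sup hK', insert_subset ?_ ?_⟩
    · exact sup_le_sup_left (nc_mono le_sup_right e) M h2
    · intro x hx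
      exact sup_le_sup_left (nc_mono le_sup_left e) M (h1 hx)

/-- finite normal closures modulo `M` suffice -/
theorem lf {M N : Subgroup G} (hM : M.Normal) (hN : N.Normal) (hMN : M ≤ N)
    (hch : ∀ L : Subgroup G, L.Normal → M ≤ L → L ≤ N → L = M ∨ L = N) {e : G} (he : e ∈ N) (heM : e ∉ M) {K₁ : Subgroup G}
    (hK₁ : K₁.FG) (h : ∀ K : Subgroup G, K.FG → K₁ ≤ K → ((fun g : G => (g : G ⧸ M)) '' (nc K e : Set G)).Finite) :
    LocFin M N := by
  intro E T hE hT hEN
  obtain ⟨K₂, hK₂, h1⟩ := reach_fin hM hN hMN hch he heM hE hEN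
  obtain ⟨K, hKd⟩ : ∃ K, K = K₁ ⊔ K₂ ⊔ Subgroup.closure T := ⟨_, rfl⟩
  have hK : K.FG := by rw [hKd]; exact (hK₁.sup hK₂).sup (fg_closure hT)
  have hle1 : K₁ ≤ K := by rw [hKd]; exact le_sup_left.trans le_sup_left
  have hle2 : K₂ ≤ K := by rw [hKd]; exact le_sup_right.trans le_sup_left
  have hle3 : T ⊆ K := by rw [hKd]; exact Subgroup.subset_closure.trans (le_sup_right : Subgroup.closure T ≤ _)
  refine ⟨M ⊔ nc K e, le_sup_left, sup_le hMN (nc_le fun k _ => hN.conj_mem e he k), ?_, ?_, ?_⟩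
  · exact h1.trans (sup_le_sup_left (nc_mono hle2 e) M)
  · refine (h K hK hle1).subset ?_
    rintro _ ⟨x, hx, rfl⟩
    obtain ⟨m, hm, a, ha, rfl⟩ := (mem_sup_l hM).1 hx
    refine ⟨a, ha, ?_⟩
    show (a : G ⧸ M) = ((m * a : G) : G ⧸ M)
    rw [QuotientGroup.eq]
    have := hM.conj_mem m hm a⁻¹
    rwa [inv_inv, mul_assoc] at this
  · intro t ht b hb
    exact sup_conj hM (fun a ha => nc_conj (hle3 ht) ha) hb

/-- the chief factors of a locally finite-by-polycyclic group -/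
theorem chief {M N : Subgroup G} (hM : M.Normal) (hN : N.Normal) (hMN : M ≤ N)
    (hch : ∀ L : Subgroup G, L.Normal → M ≤ L → L ≤ N → L = M ∨ L = N) {g : G} (hg : g ∈ N) (hgM : g ∉ M)
    (hloc : ∀ K : Subgroup G, K.FG → ∀ e ∈ N, e ∈ K → FbP ((nc K e).map (QuotientGroup.mk' M))) : LocFin M N := by
  classical
  let π : G →* G ⧸ M := QuotientGroup.mk' M
  have kM : ∀ g : G, π g = 1 ↔ g ∈ M := fun g => QuotientGroup.eq_one_iff g
  have hsup : ∀ (A : Subgroup G) (x : G), x ∈ M ⊔ A → ∃ a ∈ A, π a = π x := by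
    intro A x hx
    obtain ⟨m, hm, a, ha, rfl⟩ := (mem_sup_l hM).1 hx
    exact ⟨a, ha, by rw [map_mul, (kM m).2 hm, one_mul]⟩
  by_cases hab : ∀ a ∈ N, ∀ b ∈ N, a * b * a⁻¹ * b⁻¹ ∈ M
  · -- the factor is abelian
    have hcom : ∀ a ∈ N, ∀ b ∈ N, π a * π b = π b * π a := by
      intro a ha b hb
      have h1 := (kM _).2 (hab a ha b hb)
      rw [map_mul, map_mul, map_mul, map_inv, map_inv] at h1
      calc π a * π b = π a * π b * (π a)⁻¹ * (π b)⁻¹ * (π b * π a) := by group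
        _ = π b * π a := by rw [h1, one_mul]
    have hfin : ∀ (e : G), e ∈ N → ∀ K : Subgroup G, K.FG → e ∈ K →
        ((∀ x ∈ N, x ^ 2 ∈ M) ∨ ∃ y ∈ nc K e, π e = π y ^ 2) → ((fun g : G => (g : G ⧸ M)) '' (nc K e : Set G)).Finite := by
      intro e he K hK heK hor
      have hleN : nc K e ≤ N := nc_le fun k _ => hN.conj_mem e he k
      have hfg : ((nc K e).map π).FG := by
        have h2 := fg_map' ((nc K e).map π).subtype ((hloc K hK e he heK).1 ⊤)
        rwa [← MonoidHom.range_eq_map, Subgroup.range_subtype] at h2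
      have h3 := fa ((nc K e).map π) hfg (by
        rintro _ ⟨a, ha, rfl⟩ _ ⟨b, hb, rfl⟩
        exact hcom a (hleN ha) b (hleN hb)) (by
        rcases hor with h | ⟨y, hy, hey⟩
        · left
          rintro _ ⟨a, ha, rfl⟩
          rw [← map_pow]
          exact (kM _).2 (h a (hleN ha))
        · right
          rintro _ ⟨a, ha, rfl⟩
          have key : ∃ z ∈ nc K e, π a = π z ^ 2 := by
            have ha' : a ∈ nc K e := ha
            unfold nc at ha'
            induction ha' using Subgroup.closure_induction with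
            | mem x hx =>
              obtain ⟨k, hk, rfl⟩ := hx
              refine ⟨k * y * k⁻¹, nc_conj hk hy, ?_⟩
              rw [map_mul, map_mul, hey, map_mul, map_mul, map_inv, conj_pow]
            | one => exact ⟨1, one_mem _, by simp⟩
            | mul x x' hx hx' h1 h2 =>
              obtain ⟨z, hz, hz2⟩ := h1 hx
              obtain ⟨z', hz', hz2'⟩ := h2 hx'
              refine ⟨z * z', mul_mem hz hz', ?_⟩
              have h5 := hcom z (hleN hz) z' (hleN hz')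
              rw [map_mul, hz2, hz2', map_mul, sq, sq, sq]
              calc π z * π z * (π z' * π z') = π z * (π z * π z') * π z' := by group
                _ = π z * (π z' * π z) * π z' := by rw [h5]
                _ = π z * π z' * (π z * π z') := by group
            | inv x hx h1 =>
              obtain ⟨z, hz, hz2⟩ := h1 hx
              exact ⟨z⁻¹, inv_mem hz, by rw [map_inv, hz2, map_inv, inv_pow]⟩
          obtain ⟨z, hz, hz2⟩ := key
          exact ⟨π z, ⟨z, hz, rfl⟩, hz2⟩)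
      rw [Subgroup.coe_map] at h3
      exact h3
    by_cases h2 : ∀ x ∈ N, x ^ 2 ∈ M
    · refine lf hM hN hMN hch hg hgM (K₁ := Subgroup.closure {g}) (fg_closure (finite_singleton g)) fun K hK hle => ?_
      exact hfin g hg K hK (hle (Subgroup.subset_closure rfl)) (Or.inl h2)
    · push Not at h2
      obtain ⟨y₀, hy₀, hy₀2⟩ := h2
      let L : Subgroup G :=
        { carrier := {x | x ∈ N ∧ ∃ y ∈ N, π x = π y ^ 2}
          mul_mem' := by
            rintro x x' ⟨hx, z, hz, hz2⟩ ⟨hx', z', hz', hz2'⟩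
            refine ⟨mul_mem hx hx', z * z', mul_mem hz hz', ?_⟩
            have h5 := hcom z hz z' hz'
            rw [map_mul, hz2, hz2', map_mul, sq, sq, sq]
            calc π z * π z * (π z' * π z') = π z * (π z * π z') * π z' := by group
              _ = π z * (π z' * π z) * π z' := by rw [h5]
              _ = π z * π z' * (π z * π z') := by group
          one_mem' := ⟨one_mem _, 1, one_mem _, by simp⟩
          inv_mem' := by
            rintro x ⟨hx, z, hz, hz2⟩
            exact ⟨inv_mem hx, z⁻¹, inv_mem hz, by rw [map_inv, hz2, map_inv, inv_pow]⟩ }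
      have hL : L.Normal := by
        refine ⟨?_⟩
        rintro x ⟨hx, z, hz, hz2⟩ h
        refine ⟨hN.conj_mem x hx h, h * z * h⁻¹, hN.conj_mem z hz h, ?_⟩
        rw [map_mul, map_mul, hz2, map_mul, map_mul, map_inv, conj_pow]
      have h3 : L = N := by
        rcases hch L hL (fun m hm => ⟨hMN hm, 1, one_mem _, by rw [(kM m).2 hm]; simp⟩) (fun x hx => hx.1) with h4 | h4
        · exfalso
          have h5 : y₀ ^ 2 ∈ L := ⟨pow_mem hy₀ 2, y₀, hy₀, map_pow _ _ _⟩
          rw [h4] at h5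
          exact hy₀2 h5
        · exact h4
      have h4 : g ∈ L := by rw [h3]; exact hg
      obtain ⟨-, y, hy, hgy⟩ := h4
      obtain ⟨K₂, hK₂, hyK⟩ := reach hM hN hMN hch hg hgM hy
      refine lf hM hN hMN hch hg hgM (K₁ := K₂ ⊔ Subgroup.closure {g}) (hK₂.sup (fg_closure (finite_singleton g)))
        fun K hK hle => ?_
      refine hfin g hg K hK (hle ((le_sup_right : Subgroup.closure {g} ≤ _) (Subgroup.subset_closure rfl))) (Or.inr ?_)
      obtain ⟨y', hy', hy2⟩ := hsup _ _ (sup_le_sup_left (nc_mono (le_sup_left.trans hle) g) M hyK)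
      exact ⟨y', hy', by rw [hy2]; exact hgy⟩
  · -- the factor is not abelian
    push Not at hab
    obtain ⟨a, ha, b, hb, hc⟩ := hab
    obtain ⟨c, hcd⟩ : ∃ c, c = a * b * a⁻¹ * b⁻¹ := ⟨_, rfl⟩
    rw [← hcd] at hc
    have hcN : c ∈ N := by rw [hcd]; exact mul_mem (mul_mem (mul_mem ha hb) (inv_mem ha)) (inv_mem hb)
    obtain ⟨K₂, hK₂, hE⟩ := reach_fin hM hN hMN hch hcN hc (E := {a, b}) (toFinite _)
      (by rintro x (rfl | rfl); exacts [ha, hb])
    refine lf hM hN hMN hch hcN hc (K₁ := K₂ ⊔ Subgroup.closure {c}) (hK₂.sup (fg_closure (finite_singleton c)))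
      fun K hK hle => ?_
    have hcK : c ∈ K := hle ((le_sup_right : Subgroup.closure {c} ≤ _) (Subgroup.subset_closure rfl))
    have hmono := sup_le_sup_left (nc_mono (le_sup_left.trans hle) c) M
    obtain ⟨a', ha', haa⟩ := hsup _ _ (hmono (hE (by simp : a ∈ ({a, b} : Set G))))
    obtain ⟨b', hb', hbb⟩ := hsup _ _ (hmono (hE (by simp : b ∈ ({a, b} : Set G))))
    obtain ⟨T, n, hT, hn⟩ := fbp_ds (hloc K hK c hcN hcK)
    have hcc : π c = ⁅π a', π b'⁆ := by
      rw [haa, hbb, commutatorElement_def, hcd, map_mul, map_mul, map_mul, map_inv, map_inv]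
    let A : Subgroup (G ⧸ M) := (nc K c).map π
    let D : ℕ → Subgroup (G ⧸ M) := fun n => (derivedSeries A n).map A.subtype
    have hDs : ∀ n, D (n + 1) = ⁅D n, D n⁆ := by
      intro n
      show (derivedSeries A (n + 1)).map A.subtype = _
      rw [derivedSeries_succ, Subgroup.map_commutator]
    have hDn : ∀ n, ∀ k ∈ K, ∀ x ∈ D n, π k * x * (π k)⁻¹ ∈ D n := by
      intro n
      induction n with
      | zero =>
        rintro k hk _ ⟨x, -, rfl⟩
        obtain ⟨y, hy, hyx⟩ := x.2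
        exact ⟨⟨π k * x * (π k)⁻¹, k * y * k⁻¹, nc_conj hk hy, by rw [map_mul, map_mul, map_inv, hyx]⟩, trivial, rfl⟩
      | succ n ih =>
        intro k hk x hx
        rw [hDs] at hx ⊢
        have h1 : (D n).map (MulAut.conj (π k)).toMonoidHom ≤ D n := by
          rintro _ ⟨y, hy, rfl⟩
          exact ih k hk y hy
        have h2 : π k * x * (π k)⁻¹ ∈ (⁅D n, D n⁆).map (MulAut.conj (π k)).toMonoidHom := ⟨x, hx, rfl⟩
        rw [Subgroup.map_commutator] at h2
        exact Subgroup.commutator_mono h1 h1 h2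
    have hD : ∀ n : ℕ, A ≤ D n := by
      intro n
      induction n with
      | zero =>
        intro x hx
        exact ⟨⟨x, hx⟩, trivial, rfl⟩
      | succ n ih =>
        have h1 : π c ∈ D (n + 1) := by
          rw [hcc, hDs]
          exact Subgroup.commutator_mem_commutator (ih ⟨a', ha', rfl⟩) (ih ⟨b', hb', rfl⟩)
        show (nc K c).map π ≤ D (n + 1)
        rw [Subgroup.map_le_iff_le_comap]
        refine nc_le fun k hk => ?_
        show π (k * c * k⁻¹) ∈ D (n + 1)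
        rw [map_mul, map_mul, map_inv]
        exact hDn (n + 1) k hk _ h1
    have hfin : ((D n : Subgroup (G ⧸ M)) : Set (G ⧸ M)).Finite := by
      show (((derivedSeries A n).map A.subtype : Subgroup (G ⧸ M)) : Set (G ⧸ M)).Finite
      rw [Subgroup.coe_map]
      exact (hT.subset hn).image _
    refine hfin.subset ?_
    have := hD n
    intro x hx
    exact this hx

/-- `N / M` is locally `G`-finite-by-polycyclic -/
def LocFbP (M : Subgroup G) [M.Normal] (N : Subgroup G) : Prop :=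
  ∀ K : Subgroup G, K.FG → ∀ e ∈ N, e ∈ K → FbP ((nc K e).map (QuotientGroup.mk' M))

/-- chief factors of a maximal chain of normal subgroups -/
theorem exists_chief {C₁ : Set (Subgroup G)} (hC₁ : ∀ c ∈ C₁, c.Normal) (hch : IsChain (· ≤ ·) C₁) :
    ∃ C : Set (Subgroup G), C₁ ⊆ C ∧ (∀ c ∈ C, c.Normal) ∧
    IsChain (· ≤ ·) C ∧ ∀ g : G, g ≠ 1 → ∃ M ∈ C, ∃ N ∈ C, M ≤ N ∧ g ∈ N ∧ g ∉ M ∧
      (∀ c ∈ C, g ∈ c → N ≤ c) ∧ (∀ c ∈ C, g ∉ c → c ≤ M) ∧
      ∀ L : Subgroup G, L.Normal → M ≤ L → L ≤ N → L = M ∨ L = N := by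
  classical
  let r : {N : Subgroup G // N.Normal} → {N : Subgroup G // N.Normal} → Prop := (· ≤ ·)
  have hch' : IsChain r {c | c.1 ∈ C₁} := by
    intro c hc d hd hne
    exact hch hc hd fun h => hne (Subtype.ext h)
  obtain ⟨C₀, hmax, hC₀⟩ := hch'.exists_maxChain
  let C : Set (Subgroup G) := Subtype.val '' C₀
  have hCn : ∀ c ∈ C, c.Normal := by
    rintro _ ⟨c, -, rfl⟩
    exact c.2
  have hcmp : ∀ c ∈ C, ∀ d ∈ C, c ≤ d ∨ d ≤ c := by
    rintro _ ⟨c, hc, rfl⟩ _ ⟨d, hd, rfl⟩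
    exact hmax.isChain.total hc hd
  have hins : ∀ L : Subgroup G, L.Normal → (∀ c ∈ C, c ≤ L ∨ L ≤ c) → L ∈ C := by
    intro L hL hc
    have h1 : IsChain r (insert ⟨L, hL⟩ C₀) := by
      refine hmax.isChain.insert ?_
      intro b hb _
      rcases hc b.1 ⟨b, hb, rfl⟩ with h | h
      · exact Or.inr h
      · exact Or.inl h
    have h2 := hmax.2 h1 (subset_insert _ _)
    refine ⟨⟨L, hL⟩, ?_, rfl⟩
    rw [h2]
    exact mem_insert _ _
  refine ⟨C, fun c hc => ⟨⟨c, hC₁ c hc⟩, hC₀ hc, rfl⟩, hCn, ?_, ?_⟩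
  · intro c hc d hd _
    exact hcmp c hc d hd
  · intro g hg
    have hbot : (⊥ : Subgroup G) ∈ C := hins ⊥ inferInstance fun c _ => Or.inr bot_le
    let A : Set (Subgroup G) := {c ∈ C | g ∈ c}
    let B : Set (Subgroup G) := {c ∈ C | g ∉ c}
    have hBne : B.Nonempty := ⟨⊥, hbot, by rwa [Subgroup.mem_bot]⟩
    have hBA : ∀ c ∈ B, ∀ d ∈ A, c ≤ d := by
      rintro c ⟨hc, hgc⟩ d ⟨hd, hgd⟩
      rcases hcmp c hc d hd with h | h
      · exact h
      · exact absurd (h hgd) hgc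
    have hdir : DirectedOn (· ≤ ·) B := by
      rintro c hc d hd
      rcases hcmp c hc.1 d hd.1 with h | h
      · exact ⟨d, hd, h, le_rfl⟩
      · exact ⟨c, hc, le_rfl, h⟩
    have hN : (sInf A).Normal := by
      refine ⟨fun n hn h => ?_⟩
      rw [Subgroup.mem_sInf] at hn ⊢
      exact fun c hc => (hCn c hc.1).conj_mem n (hn c hc) h
    have hM : (sSup B).Normal := by
      refine ⟨fun n hn h => ?_⟩
      rw [Subgroup.mem_sSup_of_directedOn hBne hdir] at hn ⊢
      obtain ⟨c, hc, hnc⟩ := hn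
      exact ⟨c, hc, (hCn c hc.1).conj_mem n hnc h⟩
    have hgN : g ∈ sInf A := Subgroup.mem_sInf.2 fun c hc => hc.2
    have hgM : g ∉ sSup B := by
      rw [Subgroup.mem_sSup_of_directedOn hBne hdir]
      rintro ⟨c, hc, hgc⟩
      exact hc.2 hgc
    have hMN : sSup B ≤ sInf A := sSup_le fun c hc => le_sInf fun d hd => hBA c hc d hd
    have hbetween : ∀ L : Subgroup G, L.Normal → sSup B ≤ L → L ≤ sInf A → L ∈ C := by
      intro L hL h1 h2
      refine hins L hL fun c hc => ?_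
      by_cases hgc : g ∈ c
      · exact Or.inr (h2.trans (sInf_le ⟨hc, hgc⟩))
      · exact Or.inl ((le_sSup (show c ∈ B from ⟨hc, hgc⟩)).trans h1)
    refine ⟨sSup B, hbetween _ hM le_rfl hMN, sInf A, hbetween _ hN hMN le_rfl, hMN, hgN, hgM,
      fun c hc hgc => sInf_le ⟨hc, hgc⟩, fun c hc hgc => le_sSup ⟨hc, hgc⟩, ?_⟩
    intro L hL h1 h2
    have hLC := hbetween L hL h1 h2
    by_cases hgL : g ∈ L
    · exact Or.inr (le_antisymm h2 (sInf_le ⟨hLC, hgL⟩))
    · exact Or.inl (le_antisymm (le_sSup (show L ∈ B from ⟨hLC, hgL⟩)) h1)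

/-- THEOREM SYS for one finite set -/
theorem tile_sys {F : Set G} (hF : F.Finite) {C : Set (Subgroup G)} (hCn : ∀ c ∈ C, c.Normal)
    (hch : IsChain (· ≤ ·) C) {N₀ : Subgroup G} (hN₀ : N₀ ∈ C) (hG : Gd F N₀)
    (h : ∀ f ∈ F, ∀ f' ∈ F, f ≠ f' → f⁻¹ * f' ∈ N₀ → ∃ (M N : Subgroup G) (_ : M.Normal), M ∈ C ∧ N ∈ C ∧
      f⁻¹ * f' ∈ N ∧ f⁻¹ * f' ∉ M ∧ LocFbP M N) : HasTile F := by
  obtain ⟨C', h1, h2, h3, h4⟩ := exists_chief hCn hch
  refine tile_of_chain hF h2 h3 (h1 hN₀) hG ?_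
  intro f hf f' hf' hne hm
  obtain ⟨M, N, hM, hMC, hNC, hgN, hgM, hloc⟩ := h f hf f' hf' hne hm
  obtain ⟨M', hM', N', hN', h5, h6, h7, h8, h9, h10⟩ := h4 (f⁻¹ * f') (by rwa [Ne, inv_mul_eq_one])
  refine ⟨M', hM', N', hN', h5, h8 N₀ (h1 hN₀) hm, h6, h7, ?_⟩
  have hMn : M'.Normal := h2 M' hM'
  have hle : M ≤ M' := h9 M (h1 hMC) hgM
  have hle' : N' ≤ N := h8 N (h1 hNC) hgN
  refine chief hMn (h2 N' hN') h5 h10 h6 h7 fun K hK e he heK => ?_
  have h11 := hloc K hK e (hle' he) heK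
  let q : (G ⧸ M) →* (G ⧸ M') := QuotientGroup.map M M' (MonoidHom.id G) (by simpa using hle)
  have hq : (nc K e).map (QuotientGroup.mk' M') = ((nc K e).map (QuotientGroup.mk' M)).map q := by
    rw [Subgroup.map_map]
    congr 1
  rw [hq]
  exact fbp_surj (q.subgroupMap _) (q.subgroupMap_surjective _) h11

/-- THEOREM SYS -/
theorem hasP_sys (h : ∀ F : Set G, F.Finite → ∃ (C : Set (Subgroup G)) (N₀ : Subgroup G) (_ : N₀.Normal),
    (∀ c ∈ C, c.Normal) ∧ IsChain (· ≤ ·) C ∧ N₀ ∈ C ∧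
    (HasP (G ⧸ N₀) ∨ ∃ H : Subgroup (G ⧸ N₀), (H : Set (G ⧸ N₀)).Finite ∧ (fun g : G => (g : G ⧸ N₀)) '' F ⊆ H) ∧
    ∀ f ∈ F, ∀ f' ∈ F, f ≠ f' → f⁻¹ * f' ∈ N₀ → ∃ (M N : Subgroup G) (_ : M.Normal), M ∈ C ∧ N ∈ C ∧
      f⁻¹ * f' ∈ N ∧ f⁻¹ * f' ∉ M ∧ LocFbP M N) : HasP G := by
  intro F hF
  obtain ⟨C, N₀, hn, h1, h2, h3, h4, h5⟩ := h F hF
  refine tile_sys hF h1 h2 h3 ?_ h5
  rcases h4 with h4 | ⟨H, hH, hFH⟩
  · exact gd_of_hasTile hn (h4 _ (hF.image _))
  · refine gd_of_fin (B := H.comap (QuotientGroup.mk' N₀)) hn ?_ ?_ ?_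
    · intro x hx
      show ((x : G) : G ⧸ N₀) ∈ H
      rw [(QuotientGroup.eq_one_iff x).2 hx]
      exact H.one_mem
    · refine hH.subset ?_
      rintro _ ⟨x, hx, rfl⟩
      exact hx
    · intro f hf
      exact hFH ⟨f, hf, rfl⟩

end

end Pool.Agent.H47.CH
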