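import Mathlib

/-!
# Chou's property P: normal systems (part 1: the general theorem)
-/

set_option autoImplicit false

namespace Pool.Agent.H47.CH

open Set

/-- The finite set `F` lies in a finite `S` for which there is `X` with the left translates `x S`
pairwise disjoint and the right translates `S x` covering the group. -/
def HasTile {G : Type*} [Group G] (F : Set G) : Prop :=
  ∃ S : Set G, S.Finite ∧ F ⊆ S ∧ ∃ X : Set G,
    (∀ x₁ ∈ X, ∀ x₂ ∈ X, x₁ ≠ x₂ →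
      Disjoint ((fun s => x₁ * s) '' S) ((fun s => x₂ * s) '' S)) ∧
    (⋃ x ∈ X, (fun s => s * x) '' S) = univ

/-- Property `P` of the problem. -/
def HasP (G : Type*) [Group G] : Prop := ∀ F : Set G, F.Finite → HasTile F

/-- `N / M` is locally `G`-finite: for all finite `E ⊆ N` and `T ⊆ G` there is a subgroup `B` with
`M ≤ B ≤ N`, `E ⊆ B`, `B / M` finite, which is normalised by `T`. -/
def LocFin {G : Type*} [Group G] (M N : Subgroup G) : Prop :=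
  ∀ E T : Set G, E.Finite → T.Finite → E ⊆ N → ∃ B : Subgroup G, M ≤ B ∧ B ≤ N ∧ E ⊆ B ∧
    ((fun g : G => (g : G ⧸ M)) '' (B : Set G)).Finite ∧ ∀ t ∈ T, ∀ b ∈ B, t * b * t⁻¹ ∈ B

theorem tile_iff {G : Type*} [Group G] (F : Set G) :
    HasTile F ↔ ∃ S : Set G, S.Finite ∧ F ⊆ S ∧ ∃ X : Set G,
      (∀ y : G, ∀ s₁ ∈ S, ∀ s₂ ∈ S, y * s₁⁻¹ ∈ X → y * s₂⁻¹ ∈ X → s₁ = s₂) ∧
      (∀ y : G, ∃ s ∈ S, s⁻¹ * y ∈ X) := by
  constructor
  · rintro ⟨S, h1, h2, X, h3, h4⟩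
    refine ⟨S, h1, h2, X, ?_, ?_⟩
    · intro y s₁ hs₁ s₂ hs₂ h5 h6
      by_contra hne
      have hx : y * s₁⁻¹ ≠ y * s₂⁻¹ := by
        intro h; exact hne (by simpa using h)
      have h7 := h3 _ h5 _ h6 hx
      exact (Set.disjoint_left.1 h7) (a := y) ⟨s₁, hs₁, by simp⟩ ⟨s₂, hs₂, by simp⟩
    · intro y
      have h5 : y ∈ ⋃ x ∈ X, (fun s => s * x) '' S := by rw [h4]; trivial
      simp only [mem_iUnion, mem_image] at h5
      obtain ⟨x, hx, s, hs, rfl⟩ := h5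
      exact ⟨s, hs, by simpa using hx⟩
  · rintro ⟨S, h1, h2, X, h3, h4⟩
    refine ⟨S, h1, h2, X, ?_, ?_⟩
    · intro x₁ hx₁ x₂ hx₂ hne
      rw [Set.disjoint_left]
      rintro y ⟨s₁, hs₁, rfl⟩ ⟨s₂, hs₂, h5⟩
      apply hne
      have h5' : x₂ * s₂ = x₁ * s₁ := h5
      have h6 := h3 (x₁ * s₁) s₁ hs₁ s₂ hs₂ (by simpa using hx₁) (by rw [← h5']; simpa using hx₂)
      subst h6
      exact (mul_right_cancel h5').symm
    · apply Set.eq_univ_of_forall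
      intro y
      obtain ⟨s, hs, h5⟩ := h4 y
      simp only [mem_iUnion, mem_image]
      exact ⟨s⁻¹ * y, h5, s, hs, by simp⟩

/-- A finite subgroup has a common transversal on both sides (Hall's theorem). -/
theorem trans_of_finite {G : Type*} [Group G] (H : Subgroup G) (hH : (H : Set G).Finite) :
    ∃ X : Set G, (∀ y : G, ∀ s₁ ∈ H, ∀ s₂ ∈ H, y * s₁⁻¹ ∈ X → y * s₂⁻¹ ∈ X → s₁ = s₂) ∧
      (∀ y : G, ∃ s ∈ H, s⁻¹ * y ∈ X) := by
  classical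
  have hfin : Finite H := hH
  have hft : Fintype H := Fintype.ofFinite H
  let R := Quotient (QuotientGroup.rightRel H)
  let t : R → Finset (G ⧸ H) := fun r =>
    Finset.univ.image (fun h : H => (((h : G) * r.out : G) : G ⧸ H))
  have hall : ∀ s : Finset R, s.card ≤ (s.biUnion t).card := by
    intro s
    let E : Finset G := (s ×ˢ (Finset.univ : Finset H)).image (fun p => (p.2 : G) * p.1.out)
    have hinj : Set.InjOn (fun p : R × H => (p.2 : G) * p.1.out)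
        ((s ×ˢ (Finset.univ : Finset H) : Finset (R × H)) : Set (R × H)) := by
      rintro ⟨r, h⟩ - ⟨r', h'⟩ - h1
      have h1' : (h : G) * r.out = (h' : G) * r'.out := h1
      have h2 : r = r' := by
        rw [← Quotient.out_eq r, ← Quotient.out_eq r']
        apply Quotient.sound
        show (QuotientGroup.rightRel H) _ _
        rw [QuotientGroup.rightRel_apply]
        have h3 : r'.out * r.out⁻¹ = ((h'⁻¹ * h : H) : G) := by
          rw [Subgroup.coe_mul, InvMemClass.coe_inv, eq_inv_mul_iff_mul_eq, ← mul_assoc, ← h1']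
          group
        rw [h3]; exact (h'⁻¹ * h : H).2
      subst h2
      have h3 := mul_right_cancel h1'
      simp only [Subtype.ext_iff, Prod.mk.injEq, true_and]
      exact h3
    have hE : E.card = s.card * Fintype.card H := by
      rw [Finset.card_image_of_injOn hinj, Finset.card_product, Finset.card_univ]
    have hsub : E.image (fun g : G => (g : G ⧸ H)) ⊆ s.biUnion t := by
      intro c hc
      simp only [E, Finset.mem_image, Finset.mem_product, Finset.mem_univ, and_true] at hc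
      obtain ⟨g, ⟨⟨r, h⟩, hr, rfl⟩, rfl⟩ := hc
      exact Finset.mem_biUnion.2 ⟨r, hr, Finset.mem_image.2 ⟨h, Finset.mem_univ _, rfl⟩⟩
    have hfib : E.card ≤ Fintype.card H * (E.image (fun g : G => (g : G ⧸ H))).card := by
      apply Finset.card_le_mul_card_image
      intro c _
      calc (E.filter (fun g : G => (g : G ⧸ H) = c)).card
          ≤ ((Finset.univ : Finset H).image (fun h : H => c.out * (h : G))).card := by
            apply Finset.card_le_card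
            intro g hg
            have hg2 := (Finset.mem_filter.1 hg).2
            have h1 : ((c.out : G) : G ⧸ H) = (g : G ⧸ H) := by rw [hg2]; exact Quotient.out_eq' c
            rw [QuotientGroup.eq] at h1
            exact Finset.mem_image.2 ⟨⟨_, h1⟩, Finset.mem_univ _, by simp⟩
        _ ≤ (Finset.univ : Finset H).card := Finset.card_image_le
        _ = Fintype.card H := Finset.card_univ
    have h1 : s.card * Fintype.card H ≤ (s.biUnion t).card * Fintype.card H := by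
      calc s.card * Fintype.card H = E.card := hE.symm
        _ ≤ _ := hfib
        _ ≤ Fintype.card H * (s.biUnion t).card := Nat.mul_le_mul_left _ (Finset.card_le_card hsub)
        _ = _ := mul_comm _ _
    exact Nat.le_of_mul_le_mul_right h1 Fintype.card_pos
  obtain ⟨f, hf1, hf2⟩ := (Finset.all_card_le_biUnion_card_iff_exists_injective t).1 hall
  have hf3 : ∀ r : R, ∃ h : H, (((h : G) * r.out : G) : G ⧸ H) = f r := by
    intro r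
    obtain ⟨h, -, h1⟩ := Finset.mem_image.1 (hf2 r)
    exact ⟨h, h1⟩
  choose η hη using hf3
  refine ⟨Set.range (fun r : R => (η r : G) * r.out), ?_, ?_⟩
  · rintro y s₁ hs₁ s₂ hs₂ ⟨r, hr⟩ ⟨r', hr'⟩
    have hr1 : (η r : G) * r.out = y * s₁⁻¹ := hr
    have hr2 : (η r' : G) * r'.out = y * s₂⁻¹ := hr'
    have h1 : f r = f r' := by
      rw [← hη, ← hη, hr1, hr2, QuotientGroup.eq]
      have : (y * s₁⁻¹)⁻¹ * (y * s₂⁻¹) = s₁ * s₂⁻¹ := by group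
      rw [this]
      exact H.mul_mem hs₁ (H.inv_mem hs₂)
    have h2 := hf1 h1
    subst h2
    rw [hr1] at hr2
    exact inv_injective (mul_left_cancel hr2)
  · intro y
    let r : R := Quotient.mk _ y
    have h1 : (QuotientGroup.rightRel H) r.out y := Quotient.mk_out (s := QuotientGroup.rightRel H) y
    rw [QuotientGroup.rightRel_apply] at h1
    refine ⟨((η r : G) * (r.out * y⁻¹))⁻¹, ?_, r, ?_⟩
    · apply H.inv_mem
      apply H.mul_mem (η r).2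
      have h2 := H.inv_mem h1
      simpa using h2
    · show (η r : G) * r.out = _
      group

/-- a two-sided tile modulo `N` which catches `F` -/
def Gd {G : Type*} [Group G] (F : Set G) (N : Subgroup G) : Prop :=
  ∃ S X : Set G, S.Finite ∧ (∀ x ∈ X, ∀ n ∈ N, x * n ∈ X) ∧ (∀ g : G, ∃ s ∈ S, s⁻¹ * g ∈ X) ∧
    (∀ g : G, ∀ s ∈ S, ∀ s' ∈ S, g * s⁻¹ ∈ X → g * s'⁻¹ ∈ X → s = s') ∧ ∀ f ∈ F, ∃ s ∈ S, s⁻¹ * f ∈ N

/-- the step with a finite section -/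
theorem step_fin {G : Type*} [Group G] {F : Set G} {M N : Subgroup G} (hM : M.Normal) (hN : N.Normal) (hMN : M ≤ N)
    {S X : Set G} (hS : S.Finite) (hX : ∀ x ∈ X, ∀ n ∈ N, x * n ∈ X) (hc : ∀ g : G, ∃ s ∈ S, s⁻¹ * g ∈ X)
    (hu : ∀ g : G, ∀ s ∈ S, ∀ s' ∈ S, g * s⁻¹ ∈ X → g * s'⁻¹ ∈ X → s = s') (hF : ∀ f ∈ F, ∃ s ∈ S, s⁻¹ * f ∈ N)
    {B : Subgroup G} (_hMB : M ≤ B) (hBN : B ≤ N) (hB : ((fun g : G => (g : G ⧸ M)) '' (B : Set G)).Finite)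
    (hSB : ∀ s ∈ S, ∀ b ∈ B, s * b * s⁻¹ ∈ B) (hFB : ∀ f ∈ F, ∀ s ∈ S, s⁻¹ * f ∈ N → s⁻¹ * f ∈ B) : Gd F M := by
  classical
  let π : G →* G ⧸ M := QuotientGroup.mk' M
  have kM : ∀ g : G, π g = 1 ↔ g ∈ M := fun g => QuotientGroup.eq_one_iff g
  have hXl : ∀ n ∈ N, ∀ x ∈ X, n * x ∈ X := by
    intro n hn x hx
    have h1 := hX x hx (x⁻¹ * n * x) (by simpa using hN.conj_mem n hn x⁻¹)
    rwa [show x * (x⁻¹ * n * x) = n * x by group] at h1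
  have hH : ((B.map π : Subgroup (G ⧸ M)) : Set (G ⧸ M)).Finite := by
    rw [Subgroup.coe_map]
    exact hB
  obtain ⟨D, hD1, hD2⟩ := trans_of_finite (B.map π) hH
  have hρ : ∀ q : G ⧸ M, ∃ b : G, q ∈ B.map π → b ∈ B ∧ π b = q := by
    intro q
    by_cases hq : q ∈ B.map π
    · obtain ⟨b, hb, hbq⟩ := hq
      exact ⟨b, fun _ => ⟨hb, hbq⟩⟩
    · exact ⟨1, fun h => absurd h hq⟩
  choose ρ hρ using hρ
  refine ⟨(fun p : G × (G ⧸ M) => p.1 * ρ p.2) '' (S ×ˢ (B.map π : Set (G ⧸ M))), {x | x ∈ X ∧ π x ∈ D},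
    (hS.prod hH).image _, ?_, ?_, ?_, ?_⟩
  · rintro x ⟨hx, hxD⟩ m hm
    refine ⟨hX x hx m (hMN hm), ?_⟩
    rw [map_mul, (kM m).2 hm, mul_one]
    exact hxD
  · intro g
    obtain ⟨s, hs, hsX⟩ := hc g
    obtain ⟨h, hh, hhD⟩ := hD2 (π (s⁻¹ * g))
    obtain ⟨hb, hbh⟩ := hρ h hh
    refine ⟨s * ρ h, ⟨(s, h), ⟨hs, hh⟩, rfl⟩, ?_, ?_⟩
    · rw [mul_inv_rev, mul_assoc]
      exact hXl _ (N.inv_mem (hBN hb)) _ hsX
    · rw [mul_inv_rev, mul_assoc, map_mul, map_inv, hbh]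
      exact hhD
  · rintro g _ ⟨⟨s, h⟩, ⟨hs, hh⟩, rfl⟩ _ ⟨⟨s', h'⟩, ⟨hs', hh'⟩, rfl⟩ ⟨h1, h2⟩ ⟨h3, h4⟩
    simp only at hs hh hs' hh' h1 h2 h3 h4 ⊢
    obtain ⟨hb, hbh⟩ := hρ h hh
    obtain ⟨hb', hbh'⟩ := hρ h' hh'
    have e1 : ∀ (s : G) (b : G), g * (s * b)⁻¹ = g * s⁻¹ * (s * b⁻¹ * s⁻¹) := by
      intro s b
      group
    rw [e1] at h1 h2 h3 h4
    have hk : ∀ s ∈ S, ∀ b ∈ B, s * b⁻¹ * s⁻¹ ∈ B := fun s hs b hb => hSB s hs _ (B.inv_mem hb)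
    have h5 : g * s⁻¹ ∈ X := by
      have := hX _ h1 _ (N.inv_mem (hBN (hk s hs _ hb)))
      rwa [mul_assoc, mul_inv_cancel, mul_one] at this
    have h6 : g * s'⁻¹ ∈ X := by
      have := hX _ h3 _ (N.inv_mem (hBN (hk s' hs' _ hb')))
      rwa [mul_assoc, mul_inv_cancel, mul_one] at this
    have h7 := hu g s hs s' hs' h5 h6
    subst h7
    have h8 : ∀ b ∈ B, (π (s * b⁻¹ * s⁻¹))⁻¹ ∈ B.map π := fun b hb =>
      (B.map π).inv_mem ⟨_, hk s hs b hb, rfl⟩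
    have h9 := hD1 (π (g * s⁻¹)) _ (h8 _ hb) _ (h8 _ hb')
      (by rw [inv_inv, ← map_mul]; exact h2) (by rw [inv_inv, ← map_mul]; exact h4)
    have h10 : π (ρ h) = π (ρ h') := by
      have h11 := inv_injective h9
      simp only [map_mul, map_inv] at h11
      exact inv_injective (mul_left_cancel (mul_right_cancel h11))
    rw [hbh, hbh'] at h10
    rw [h10]
  · intro f hf
    obtain ⟨s, hs, hsf⟩ := hF f hf
    have h1 := hFB f hf s hs hsf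
    have hh : π (s⁻¹ * f) ∈ B.map π := ⟨_, h1, rfl⟩
    obtain ⟨hb, hbh⟩ := hρ _ hh
    refine ⟨s * ρ (π (s⁻¹ * f)), ⟨(s, _), ⟨hs, hh⟩, rfl⟩, ?_⟩
    rw [← kM, mul_inv_rev, mul_assoc, map_mul, map_inv, hbh, inv_mul_cancel]

/-- one may take the representatives in `F` -/
theorem reps {G : Type*} [Group G] {F : Set G} {N : Subgroup G} (hN : N.Normal) (h : Gd F N) :
    ∃ S X : Set G, S.Finite ∧ (∀ x ∈ X, ∀ n ∈ N, x * n ∈ X) ∧ (∀ g : G, ∃ s ∈ S, s⁻¹ * g ∈ X) ∧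
    (∀ g : G, ∀ s ∈ S, ∀ s' ∈ S, g * s⁻¹ ∈ X → g * s'⁻¹ ∈ X → s = s') ∧ (∀ f ∈ F, ∃ s ∈ S, s⁻¹ * f ∈ N) ∧
    ∀ f ∈ F, ∀ s ∈ S, s⁻¹ * f ∈ N → s ∈ F := by
  classical
  obtain ⟨S, X, hS, hX, hc, hu, hF⟩ := h
  have hσ : ∀ s : G, ∃ t : G, s⁻¹ * t ∈ N ∧ ((∃ f ∈ F, s⁻¹ * f ∈ N) → t ∈ F) := by
    intro s
    by_cases hs : ∃ f ∈ F, s⁻¹ * f ∈ N
    · obtain ⟨f, hf, hfs⟩ := hs
      exact ⟨f, hfs, fun _ => hf⟩
    · exact ⟨s, by rw [inv_mul_cancel]; exact N.one_mem, fun h => absurd h hs⟩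
  choose σ hσ1 hσ2 using hσ
  have hXl : ∀ n ∈ N, ∀ x ∈ X, n * x ∈ X := by
    intro n hn x hx
    have h1 := hX x hx (x⁻¹ * n * x) (by simpa using hN.conj_mem n hn x⁻¹)
    rwa [show x * (x⁻¹ * n * x) = n * x by group] at h1
  have hr : ∀ g s : G, g * (σ s)⁻¹ ∈ X → g * s⁻¹ ∈ X := by
    intro g s h1
    have h2 : σ s * s⁻¹ ∈ N := by
      have := hN.conj_mem _ (hσ1 s) s
      rwa [show s * (s⁻¹ * σ s) * s⁻¹ = σ s * s⁻¹ by group] at this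
    have h3 := hX _ h1 _ h2
    rwa [show g * (σ s)⁻¹ * (σ s * s⁻¹) = g * s⁻¹ by group] at h3
  refine ⟨σ '' S, X, hS.image _, hX, ?_, ?_, ?_, ?_⟩
  · intro g
    obtain ⟨s, hs, hsX⟩ := hc g
    refine ⟨σ s, ⟨s, hs, rfl⟩, ?_⟩
    have := hXl _ (N.inv_mem (hσ1 s)) _ hsX
    rwa [show (s⁻¹ * σ s)⁻¹ * (s⁻¹ * g) = (σ s)⁻¹ * g by group] at this
  · rintro g _ ⟨s, hs, rfl⟩ _ ⟨s', hs', rfl⟩ h1 h2
    rw [hu g s hs s' hs' (hr g s h1) (hr g s' h2)]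
  · intro f hf
    obtain ⟨s, hs, hsf⟩ := hF f hf
    refine ⟨σ s, ⟨s, hs, rfl⟩, ?_⟩
    have := N.mul_mem (N.inv_mem (hσ1 s)) hsf
    rwa [show (s⁻¹ * σ s)⁻¹ * (s⁻¹ * f) = (σ s)⁻¹ * f by group] at this
  · rintro f hf _ ⟨s, hs, rfl⟩ h1
    refine hσ2 s ⟨f, hf, ?_⟩
    have := N.mul_mem (hσ1 s) h1
    rwa [show s⁻¹ * σ s * ((σ s)⁻¹ * f) = s⁻¹ * f by group] at this

/-- the step -/
theorem step {G : Type*} [Group G] {F : Set G} (hFf : F.Finite) {M N : Subgroup G} (hM : M.Normal) (hN : N.Normal) (hMN : M ≤ N)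
    (h : Gd F N) (hs : LocFin M N ∨ ∀ f ∈ F, ∀ f' ∈ F, f⁻¹ * f' ∈ N → f⁻¹ * f' ∈ M) : Gd F M := by
  classical
  rcases hs with hs | hs
  · obtain ⟨S, X, hS, hX, hc, hu, hF⟩ := h
    obtain ⟨B, h1, h2, h3, h4, h5⟩ := hs ((fun p : G × G => p.1⁻¹ * p.2) '' (S ×ˢ F) ∩ N) S
      (((hS.prod hFf).image _).inter_of_left _) hS inter_subset_right
    exact step_fin hM hN hMN hS hX hc hu hF h1 h2 h4 h5 fun f hf s hs hsf => h3 ⟨⟨(s, f), ⟨hs, hf⟩, rfl⟩, hsf⟩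
  · obtain ⟨S, X, hS, hX, hc, hu, hF, hr⟩ := reps hN h
    refine step_fin hM hN hMN hS hX hc hu hF (B := M) le_rfl hMN ?_ (fun s _ b hb => hM.conj_mem b hb s) ?_
    · refine (Set.finite_singleton ((1 : G) : G ⧸ M)).subset ?_
      rintro _ ⟨m, hm, rfl⟩
      exact (QuotientGroup.eq_one_iff m).2 hm
    · intro f hf s hs' h1
      exact hs s (hr f hf s hs' h1) f hf h1

/-- subsections -/
theorem locfin_sub {G : Type*} [Group G] {M M' N' N : Subgroup G} (hM' : M'.Normal) (hN' : N'.Normal) (h1 : M ≤ M')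
    (h2 : M' ≤ N') (h3 : N' ≤ N) (h : LocFin M N) : LocFin M' N' := by
  intro E T hE hT hEN
  obtain ⟨B, b1, b2, b3, b4, b5⟩ := h E T hE hT (hEN.trans h3)
  have hmem : ∀ x : G, x ∈ (B ⊓ N') ⊔ M' ↔ ∃ b ∈ B ⊓ N', ∃ m ∈ M', b * m = x := fun x =>
    Subgroup.mem_sup_of_normal_right
  refine ⟨(B ⊓ N') ⊔ M', le_sup_right, sup_le inf_le_right h2, fun e he => ?_, ?_, ?_⟩
  · exact (le_sup_left : B ⊓ N' ≤ _) ⟨b3 he, hEN he⟩
  · have hcomp : (fun g : G => (g : G ⧸ M')) '' (((B ⊓ N') ⊔ M' : Subgroup G) : Set G) ⊆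
        (Subgroup.quotientMapOfLE h1) '' ((fun g : G => (g : G ⧸ M)) '' (B : Set G)) := by
      rintro _ ⟨x, hx, rfl⟩
      obtain ⟨b, hb, m, hm, rfl⟩ := (hmem x).1 hx
      refine ⟨(b : G ⧸ M), ⟨b, hb.1, rfl⟩, ?_⟩
      show ((b : G) : G ⧸ M') = ((b * m : G) : G ⧸ M')
      rw [QuotientGroup.eq]
      simpa using hm
    exact (b4.image _).subset hcomp
  · intro t ht x hx
    obtain ⟨b, hb, m, hm, rfl⟩ := (hmem x).1 hx
    rw [show t * (b * m) * t⁻¹ = (t * b * t⁻¹) * (t * m * t⁻¹) by group]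
    exact (hmem _).2 ⟨_, ⟨b5 t ht b hb.1, hN'.conj_mem b hb.2 t⟩, _, hM'.conj_mem m hm t, rfl⟩

/-- the finite chain -/
theorem chain_fin {G : Type*} [Group G] {F : Set G} (hFf : F.Finite) {C : Set (Subgroup G)} (hC : C.Finite)
    (hCn : ∀ c ∈ C, c.Normal) (hch : IsChain (· ≤ ·) C) {N₀ : Subgroup G} (hN₀ : N₀ ∈ C)
    (h : ∀ f ∈ F, ∀ f' ∈ F, f ≠ f' → f⁻¹ * f' ∈ N₀ → ∃ M ∈ C, ∃ N ∈ C, M ≤ N ∧ N ≤ N₀ ∧ f⁻¹ * f' ∈ N ∧ f⁻¹ * f' ∉ M ∧
      LocFin M N) (hG : Gd F N₀) : Gd F ⊥ := by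
  classical
  let C₀ : Set (Subgroup G) := insert ⊥ {c ∈ C | c ≤ N₀}
  have hC₀ : C₀.Finite := (hC.subset (sep_subset _ _)).insert _
  have hn₀ : ∀ c ∈ C₀, c.Normal := by
    rintro c (rfl | hc)
    · exact inferInstance
    · exact hCn c hc.1
  have hcmp : ∀ c ∈ C₀, ∀ d ∈ C₀, c ≤ d ∨ d ≤ c := by
    rintro c (rfl | hc) d hd
    · exact Or.inl bot_le
    · rcases hd with rfl | hd
      · exact Or.inr bot_le
      · exact hch.total hc.1 hd.1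
  have hA : {c ∈ C₀ | Gd F c}.Nonempty := ⟨N₀, Or.inr ⟨hN₀, le_rfl⟩, hG⟩
  obtain ⟨c, ⟨hcC, hcG⟩, hcm⟩ := (hC₀.subset (sep_subset C₀ (Gd F))).exists_minimalFor id _ hA
  by_cases hcb : c = ⊥
  · rw [← hcb]
    exact hcG
  exfalso
  have hD : {d ∈ C₀ | d < c}.Nonempty := ⟨⊥, Or.inl rfl, bot_lt_iff_ne_bot.2 hcb⟩
  obtain ⟨d, ⟨hdC, hdc⟩, hdm⟩ := (hC₀.subset (sep_subset C₀ (· < c))).exists_maximalFor id _ hD
  have hcN : c ≤ N₀ := by
    rcases hcC with rfl | hc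
    · exact absurd rfl hcb
    · exact hc.2
  have hlt : ∀ e ∈ C₀, e < c → e ≤ d := by
    intro e he hec
    rcases hcmp e he d hdC with h1 | h1
    · exact h1
    · exact hdm ⟨he, hec⟩ h1
  have hstep : Gd F d := by
    refine step hFf (hn₀ d hdC) (hn₀ c hcC) hdc.le hcG ?_
    by_cases hall : ∀ f ∈ F, ∀ f' ∈ F, f⁻¹ * f' ∈ c → f⁻¹ * f' ∈ d
    · exact Or.inr hall
    left
    push Not at hall
    obtain ⟨f, hf, f', hf', h1, h2⟩ := hall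
    have hne : f ≠ f' := by
      rintro rfl
      exact h2 (by rw [inv_mul_cancel]; exact d.one_mem)
    obtain ⟨M, hMC, N, hNC, hMN, hNN, h3, h4, h5⟩ := h f hf f' hf' hne (hcN h1)
    have hN' : N ∈ C₀ := Or.inr ⟨hNC, hNN⟩
    have hM' : M ∈ C₀ := Or.inr ⟨hMC, hMN.trans hNN⟩
    have hcN' : c ≤ N := by
      rcases hcmp c hcC N hN' with h6 | h6
      · exact h6
      · rcases eq_or_lt_of_le h6 with h7 | h7
        · exact h7.symm.le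
        · exact absurd (hlt N hN' h7 h3) h2
    have hMd : M ≤ d := by
      refine hlt M hM' (lt_of_le_of_ne ?_ fun h6 => h4 (by rw [h6]; exact h1))
      rcases hcmp c hcC M hM' with h6 | h6
      · exact absurd (h6 h1) h4
      · exact h6
    exact locfin_sub (hn₀ d hdC) (hn₀ c hcC) hMd hdc.le hcN' h5
  exact absurd (hcm ⟨hdC, hstep⟩ hdc.le) (not_le_of_gt hdc)

theorem gd_of_hasTile {G : Type*} [Group G] {F : Set G} {N : Subgroup G} (hN : N.Normal)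
    (h : HasTile (G := G ⧸ N) ((fun g : G => (g : G ⧸ N)) '' F)) : Gd F N := by
  classical
  rw [tile_iff] at h
  obtain ⟨S, h1, h2, X, h3, h4⟩ := h
  have ho : ∀ q : G ⧸ N, ((q.out : G) : G ⧸ N) = q := fun q => Quotient.out_eq' q
  refine ⟨Quotient.out '' S, {x | (x : G ⧸ N) ∈ X}, h1.image _, ?_, ?_, ?_, ?_⟩
  · intro x hx n hn
    show ((x * n : G) : G ⧸ N) ∈ X
    rw [show ((x * n : G) : G ⧸ N) = (x : G ⧸ N) from (QuotientGroup.eq.2 (by simpa using hn)).symm]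
    exact hx
  · intro g
    obtain ⟨s, hs, hsX⟩ := h4 (g : G ⧸ N)
    refine ⟨s.out, ⟨s, hs, rfl⟩, ?_⟩
    show (((s.out)⁻¹ * g : G) : G ⧸ N) ∈ X
    rw [QuotientGroup.mk_mul, QuotientGroup.mk_inv, ho]
    exact hsX
  · rintro g _ ⟨s, hs, rfl⟩ _ ⟨s', hs', rfl⟩ h5 h6
    have h5' : ((g * (s.out)⁻¹ : G) : G ⧸ N) ∈ X := h5
    have h6' : ((g * (s'.out)⁻¹ : G) : G ⧸ N) ∈ X := h6
    rw [QuotientGroup.mk_mul, QuotientGroup.mk_inv, ho] at h5' h6'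
    rw [h3 _ s hs s' hs' h5' h6']
  · intro f hf
    refine ⟨((f : G ⧸ N)).out, ⟨_, h2 ⟨f, hf, rfl⟩, rfl⟩, ?_⟩
    rw [← QuotientGroup.eq]
    exact ho _

theorem gd_of_fin {G : Type*} [Group G] {F : Set G} {N B : Subgroup G} (hN : N.Normal) (h1 : N ≤ B)
    (h2 : ((fun g : G => (g : G ⧸ N)) '' (B : Set G)).Finite) (h3 : F ⊆ B) : Gd F N := by
  refine step_fin (S := {1}) (X := univ) (N := ⊤) (B := B) hN inferInstance le_top (finite_singleton 1)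
    (fun _ _ _ _ => mem_univ _) (fun _ => ⟨1, rfl, mem_univ _⟩) ?_ (fun _ _ => ⟨1, rfl, Subgroup.mem_top _⟩) h1 le_top h2 ?_ ?_
  · rintro g s hs s' hs' - -
    rw [mem_singleton_iff.1 hs, mem_singleton_iff.1 hs']
  · rintro s hs b hb
    rw [mem_singleton_iff.1 hs]
    simpa using hb
  · rintro f hf s hs -
    rw [mem_singleton_iff.1 hs]
    simpa using h3 hf

/-- the general theorem for one finite set -/
theorem tile_of_chain {G : Type*} [Group G] {F : Set G} (hF : F.Finite) {C : Set (Subgroup G)} (hCn : ∀ c ∈ C, c.Normal)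
    (hch : IsChain (· ≤ ·) C) {N₀ : Subgroup G} (hN₀ : N₀ ∈ C) (hG : Gd F N₀)
    (h : ∀ f ∈ F, ∀ f' ∈ F, f ≠ f' → f⁻¹ * f' ∈ N₀ → ∃ M ∈ C, ∃ N ∈ C, M ≤ N ∧ N ≤ N₀ ∧ f⁻¹ * f' ∈ N ∧ f⁻¹ * f' ∉ M ∧
      LocFin M N) : HasTile F := by
  classical
  have hc : ∀ p : G × G, ∃ M N : Subgroup G, M ∈ C ∧ N ∈ C ∧ (p.1 ∈ F → p.2 ∈ F → p.1 ≠ p.2 → p.1⁻¹ * p.2 ∈ N₀ →
      M ≤ N ∧ N ≤ N₀ ∧ p.1⁻¹ * p.2 ∈ N ∧ p.1⁻¹ * p.2 ∉ M ∧ LocFin M N) := by
    intro p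
    by_cases hp : p.1 ∈ F ∧ p.2 ∈ F ∧ p.1 ≠ p.2 ∧ p.1⁻¹ * p.2 ∈ N₀
    · obtain ⟨M, hM, N, hN, h1⟩ := h p.1 hp.1 p.2 hp.2.1 hp.2.2.1 hp.2.2.2
      exact ⟨M, N, hM, hN, fun _ _ _ _ => h1⟩
    · exact ⟨N₀, N₀, hN₀, hN₀, fun h1 h2 h3 h4 => absurd ⟨h1, h2, h3, h4⟩ hp⟩
  choose α β hα hβ hαβ using hc
  let C' : Set (Subgroup G) := insert N₀ (α '' (F ×ˢ F) ∪ β '' (F ×ˢ F))
  have hC' : C' ⊆ C := by
    rintro c (rfl | ⟨p, -, rfl⟩ | ⟨p, -, rfl⟩)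
    exacts [hN₀, hα p, hβ p]
  have hfin : C'.Finite := (((hF.prod hF).image α).union ((hF.prod hF).image β)).insert _
  have hG' : Gd F ⊥ := by
    refine chain_fin hF hfin (fun c hc => hCn c (hC' hc)) (hch.mono hC') (mem_insert _ _) ?_ hG
    intro f hf f' hf' hne hm
    obtain ⟨h1, h2, h3, h4, h5⟩ := hαβ (f, f') hf hf' hne hm
    exact ⟨α (f, f'), Or.inr (Or.inl ⟨(f, f'), ⟨hf, hf'⟩, rfl⟩), β (f, f'), Or.inr (Or.inr ⟨(f, f'), ⟨hf, hf'⟩, rfl⟩),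
      h1, h2, h3, h4, h5⟩
  obtain ⟨S, X, hS, -, hc, hu, hFS⟩ := hG'
  rw [tile_iff]
  refine ⟨S, hS, fun f hf => ?_, X, fun y s₁ h1 s₂ h2 h3 h4 => hu y s₁ h1 s₂ h2 h3 h4, hc⟩
  obtain ⟨s, hs, h1⟩ := hFS f hf
  rw [Subgroup.mem_bot, inv_mul_eq_one] at h1
  rw [← h1]
  exact hs

end Pool.Agent.H47.CH
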